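import Pool.Agent.W307.LK.Stm
import Pool.Agent.W915.LS.SHB1

/-!
LK-SHL: the map on the Tate-Shafarevich groups over `L` (adapted from Pool.Agent.W915.LS.SHB).
-/

set_option autoImplicit false

open WeierstrassCurve Pool.Agent.W262.SH Pool.Agent.W307.LS Pool.Agent.W307.LK Pool.Agent.W915.LS
open scoped Classical

namespace Pool.Agent.W348.LK

section sha

variable (hISO : ISO) {a b : ℤ} (ha : a ≠ 0) (hb : b ≠ 0) (hab : a ≠ b)
  (L : IntermediateField ℚ QB)

theorem loc_phi (K : Type) [Field K] [Algebra ℚ K] (f : L.fixingSubgroup → Pt (F4 a b) QB)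
    (h : LocTrivK (F4 a b) L K f) :
    LocTrivK (E (4 * a) (4 * b)) L K (fun σ => phi hISO ha hb hab QB (f σ)) := by
  intro ι
  obtain ⟨P, hP⟩ := h ι
  refine ⟨phi hISO ha hb hab (AlgebraicClosure K) P, fun τ σ hc => ?_⟩
  rw [← phi_act, hP τ σ hc, map_sub, phi_act]

theorem sha_phi (f : L.fixingSubgroup → Pt (F4 a b) QB) (hf : f ∈ shaCocK (F4 a b) L) :
    (fun σ => phi hISO ha hb hab QB (f σ)) ∈ shaCocK (E (4 * a) (4 * b)) L := by
  obtain ⟨⟨h1, h2⟩, h3, h4⟩ := hf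
  refine ⟨⟨h1.comp _, fun σ τ => ?_⟩, fun p _ => ?_, ?_⟩
  · simp only [h2]
    rw [map_add, phi_act]
  · exact loc_phi hISO ha hb hab L ℚ_[p] f (h3 p)
  · exact loc_phi hISO ha hb hab L ℝ f h4

/-- the map on the cocycles -/
noncomputable def phiS : shaCocK (F4 a b) L →+ shaCocK (E (4 * a) (4 * b)) L where
  toFun f := ⟨fun σ => phi hISO ha hb hab QB (f.1 σ), sha_phi hISO ha hb hab L f.1 f.2⟩
  map_zero' := by
    apply Subtype.ext
    funext σ
    exact map_zero _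
  map_add' f g := by
    apply Subtype.ext
    funext σ
    exact map_add _ _ _

/-- the map on the Tate-Shafarevich groups -/
noncomputable def PhiS : ShaK (F4 a b) L →+ ShaK (E (4 * a) (4 * b)) L :=
  QuotientAddGroup.map _ _ (phiS hISO ha hb hab L) (by
    intro f hf
    rw [AddSubgroup.mem_addSubgroupOf] at hf
    rw [AddSubgroup.mem_comap, AddSubgroup.mem_addSubgroupOf]
    obtain ⟨P, hP⟩ := hf
    refine ⟨phi hISO ha hb hab QB P, fun σ => ?_⟩
    change phi hISO ha hb hab QB (f.1 σ) = _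
    rw [hP σ, map_sub, phi_act])

theorem PhiS_ker (c : ShaK (F4 a b) L) (hc : PhiS hISO ha hb hab L c = 0) : c + c = 0 := by
  induction c using QuotientAddGroup.induction_on with
  | H f =>
    have h1 : (QuotientAddGroup.mk (phiS hISO ha hb hab L f) : ShaK (E (4 * a) (4 * b)) L) = 0 := hc
    rw [QuotientAddGroup.eq_zero_iff, AddSubgroup.mem_addSubgroupOf] at h1
    obtain ⟨Q, hQ⟩ := h1
    obtain ⟨P, hP⟩ := phi_surj hISO ha hb hab QB Q
    rw [← QuotientAddGroup.mk_add, QuotientAddGroup.eq_zero_iff, AddSubgroup.mem_addSubgroupOf]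
    refine ⟨P + P, fun σ => ?_⟩
    have h2 : phi hISO ha hb hab QB
        (f.1 σ - (act (F4 a b) (σ : QB ≃ₐ[ℚ] QB).toAlgHom P - P)) = 0 := by
      have h3 : phi hISO ha hb hab QB (f.1 σ) =
        act (E (4 * a) (4 * b)) (σ : QB ≃ₐ[ℚ] QB).toAlgHom Q - Q := hQ σ
      rw [map_sub, map_sub, phi_act, hP, h3, sub_self]
    have h4 := phi_ker hISO ha hb hab QB _ h2
    change f.1 σ + f.1 σ = _
    rw [map_add]
    have h5 : f.1 σ + f.1 σ = (f.1 σ - (act (F4 a b) (σ : QB ≃ₐ[ℚ] QB).toAlgHom P - P)) +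
        (f.1 σ - (act (F4 a b) (σ : QB ≃ₐ[ℚ] QB).toAlgHom P - P)) +
        (act (F4 a b) (σ : QB ≃ₐ[ℚ] QB).toAlgHom P + act (F4 a b) (σ : QB ≃ₐ[ℚ] QB).toAlgHom P -
          (P + P)) := by abel
    rw [h5, h4, zero_add]

end sha

/-- SHL from ISO -/
theorem shl_of : Pool.Agent.W307.LS.ISO → Pool.Agent.W307.LK.SHL := by
  intro hISO a b ha hb hab L
  exact ⟨PhiS hISO ha hb hab L, fun c hc => PhiS_ker hISO ha hb hab L c hc⟩

end Pool.Agent.W348.LK
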